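import Pool.Agent.H54R2.Ul.Defs3

namespace Pool.Agent.H54R2.Ul

open MvPolynomial

noncomputable section

variable {k K : Type} [Field k] [Field K] [Algebra k K]

/-- **Task DU1.** -/
theorem DU1 (G : Geo k K) {N r : ℕ} (c : Fin N → Fin r → K) (hc : IsDatum G.toFil c)
    (q : ℕ) (hq : 0 < q) (hadd : ∀ x y : K, (x + y) ^ q = x ^ q + y ^ q) :
    (∀ t, Module.Finite k (W1 G.toFil q c t)) ∧ (∀ t, Module.Finite k (W2 G.toFil q c t)) ∧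
    (∀ t, Module.Finite k (UU G.toFil q c t)) ∧
    (∃ t0 : ℤ, ∀ t < t0, UU G.toFil q c t = ⊥) ∧
    (∀ t < (0 : ℤ), W1 G.toFil q c t = ⊥) ∧
    (∀ t, UU G.toFil q c t ≤ UU G.toFil q c (t + 1)) ∧
    (∀ (s t : ℤ) (a : K) (u : Fin r ⊕ Fin r → K), a ∈ G.R s → u ∈ UU G.toFil q c t →
      a • u ∈ UU G.toFil q c (s + t)) ∧
    (∀ t, ∀ u ∈ UU G.toFil q c t, G.Y1 • u ∈ UU G.toFil q c t → u ∈ UU G.toFil q c (t - 1)) ∧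
    (∃ t0 : ℤ, ∀ t ≥ t0, ∀ u ∈ UU G.toFil q c (t + 1), ∃ a ∈ UU G.toFil q c t,
      ∃ b ∈ UU G.toFil q c t, ∃ d ∈ UU G.toFil q c t, u = a + G.Y1 • b + G.Y2 • d) ∧
    (∀ u : Fin r ⊕ Fin r → K, ∃ (t : ℤ) (a : K), a ≠ 0 ∧ a ∈ G.R t ∧
      a • u ∈ UU G.toFil q c t) := sorry

end

end Pool.Agent.H54R2.Ul
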