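import Pool.Agent.H54R2.Ul.Defs3

namespace Pool.Agent.H54R2.Ul

open MvPolynomial

noncomputable section

variable {k K : Type} [Field k] [Field K] [Algebra k K]

/-- **Task FROBCOL.** -/
theorem FROBCOL [IsAlgClosed k] (p : ℕ) [Fact p.Prime] [CharP k p] (G : Geo k K)
    (J : ℤ → Submodule k K) (hJR : ∀ t, J t ≤ G.R t)
    (hmul : ∀ (s t : ℤ) (a x : K), a ∈ G.R s → x ∈ J t → a * x ∈ J (s + t))
    (C : ℕ) (hC : ∀ t, Module.finrank k (G.R t) ≤ Module.finrank k (J t) + C) :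
    ∃ (l : ℕ) (t0 : ℤ), ∀ t ≥ t0,
      Module.finrank k (G.R t) = Module.finrank k (J t) + l ∧
      Module.finrank k (G.R t) ≤ Module.finrank k (Jpow G.toFil p J t) + p ^ 2 * l := sorry

end

end Pool.Agent.H54R2.Ul
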