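import Pool.Agent.H54R2.Ul.Defs3

namespace Pool.Agent.H54R2.Ul

open MvPolynomial

noncomputable section

variable {k K : Type} [Field k] [Field K] [Algebra k K]

/-- **Task L1.** Determinants of sections are sections of the determinant. -/
theorem L1 (G : Geo k K) {N r : ℕ} (c : Fin N → Fin r → K) (hc : IsDatum G.toFil c)
    (q : ℕ) (hq : 0 < q) (hadd : ∀ x y : K, (x + y) ^ q = x ^ q + y ^ q)
    (t : Fin r ⊕ Fin r → ℤ) (u : Fin r ⊕ Fin r → Fin r ⊕ Fin r → K)
    (hu : ∀ i, u i ∈ UU G.toFil q c (t i)) :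
    Matrix.det (Matrix.of u) ∈ G.R (∑ i, t i + 8 * q * r) := sorry

end

end Pool.Agent.H54R2.Ul
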