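import Pool.Agent.H54R2.Ul.Defs3

namespace Pool.Agent.H54R2.Ul

open MvPolynomial

noncomputable section

variable {k K : Type} [Field k] [Field K] [Algebra k K]

/-- **Task L2.** `2r-1` sections in general position. -/
theorem L2 [IsAlgClosed k] (G : Geo k K) {N r : ℕ} (c : Fin N → Fin r → K)
    (hc : IsDatum G.toFil c) (o : Fin r) :
    ∃ (a b : ℤ) (u : Fin r ⊕ Fin r → Fin r ⊕ Fin r → K) (v1 v2 : Fin r ⊕ Fin r → K),
      0 ≤ a ∧ (∀ i, u i ∈ UU G.toFil 1 c a) ∧ v1 ∈ UU G.toFil 1 c b ∧ v2 ∈ UU G.toFil 1 c b ∧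
      Matrix.det (Matrix.of (Function.update u (Sum.inl o) v1)) ≠ 0 ∧
      Matrix.det (Matrix.of (Function.update u (Sum.inl o) v2)) ≠ 0 ∧
      ∀ (t : ℤ) (x : K),
        Matrix.det (Matrix.of (Function.update u (Sum.inl o) v1)) * x ∈
          G.R (t + ((2 * r - 1) * a + b + 8 * r)) →
        Matrix.det (Matrix.of (Function.update u (Sum.inl o) v2)) * x ∈
          G.R (t + ((2 * r - 1) * a + b + 8 * r)) →
        x ∈ G.R t := sorry

end

end Pool.Agent.H54R2.Ul
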