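import Pool.Agent.H54R2.Ul.Defs3

namespace Pool.Agent.H54R2.Ul

open MvPolynomial

noncomputable section

variable {k K : Type} [Field k] [Field K] [Algebra k K]

/-- **Task NOE.** Graded submodules with bounded denominators are finitely generated. -/
theorem NOE (G : Fil k K) (fin_dim : ∀ t : ℤ, Module.Finite k (G.R t))
    (fin_gen : ∃ t0 : ℤ, ∀ t : ℤ, t0 ≤ t → ∀ x ∈ G.R (t + 1),
      ∃ a ∈ G.R t, ∃ b ∈ G.R t, ∃ c ∈ G.R t, x = a + G.Y1 * b + G.Y2 * c)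
    {ι : Type} [Finite ι] (U : ℤ → Submodule k (ι → K)) (hmono : ∀ t, U t ≤ U (t + 1))
    (h1 : ∀ t, ∀ x ∈ U t, G.Y1 • x ∈ U (t + 1)) (h2 : ∀ t, ∀ x ∈ U t, G.Y2 • x ∈ U (t + 1))
    (e : K) (he : e ≠ 0) (m : ℤ) (hden : ∀ t, ∀ x ∈ U t, ∀ i, e * x i ∈ G.R (t + m)) :
    ∃ t0 : ℤ, ∀ t ≥ t0, ∀ u ∈ U (t + 1), ∃ a ∈ U t, ∃ b ∈ U t, ∃ d ∈ U t,
      u = a + G.Y1 • b + G.Y2 • d := sorry

end

end Pool.Agent.H54R2.Ul
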