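import Pool.Agent.H54R2.Ul.Defs3

namespace Pool.Agent.H54R2.Ul

open MvPolynomial

noncomputable section

/-- **Task T1.** (from T1A) Filtered modules over `k[y1,y2]` of depth two: the Euler characteristic is at most
`dim U_t + dim U^♯_{-t-3}`. -/
theorem T1 {k E : Type} [Field k] [AddCommGroup E] [Module k E]
    (y1 y2 : E →ₗ[k] E) (hcomm : ∀ x, y1 (y2 x) = y2 (y1 x))
    (U : ℤ → Submodule k E) (hfd : ∀ t, Module.Finite k (U t))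
    (hmono : ∀ t, U t ≤ U (t + 1))
    (h1 : ∀ t, ∀ x ∈ U t, y1 x ∈ U (t + 1)) (h2 : ∀ t, ∀ x ∈ U t, y2 x ∈ U (t + 1))
    (hbot : ∃ t0 : ℤ, ∀ t < t0, U t = ⊥)
    (hfg : ∃ t0 : ℤ, ∀ t ≥ t0, ∀ x ∈ U (t + 1),
      ∃ a ∈ U t, ∃ b ∈ U t, ∃ c ∈ U t, x = a + y1 b + y2 c)
    (hreg : ∀ t, ∀ x ∈ U t, y1 x ∈ U t → x ∈ U (t - 1)) :
    ∃ P : Polynomial ℚ,
      (∃ t0 : ℤ, ∀ t ≥ t0, (Module.finrank k (U t) : ℚ) = P.eval (t : ℚ)) ∧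
      ∀ t : ℤ, ∃ (s : ℕ) (φ : Fin s → (↥(⨆ t, U t) →ₗ[k] MvPolynomial (Fin 2) k)),
        LinearIndependent k φ ∧
        (∀ i (v w : ↥(⨆ t, U t)), (w : E) = y1 v → φ i w = X 0 * φ i v) ∧
        (∀ i (v w : ↥(⨆ t, U t)), (w : E) = y2 v → φ i w = X 1 * φ i v) ∧
        (∀ i (u : ℤ) (v : ↥(⨆ t, U t)), (v : E) ∈ U u → ∀ m ∈ (φ i v).support,
            (m 0 : ℤ) + m 1 ≤ u - t - 3) ∧
        P.eval (t : ℚ) ≤ Module.finrank k (U t) + s := sorry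

end

end Pool.Agent.H54R2.Ul
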