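import Pool.Agent.H54R2.Ul.Defs3

namespace Pool.Agent.H54R2.Ul

open MvPolynomial

noncomputable section

variable {k K : Type} [Field k] [Field K] [Algebra k K]

/-- **Task FROB.** -/
theorem FROB {k B : Type} [Field k] [IsAlgClosed k] (p : ℕ) [Fact p.Prime] [CharP k p]
    [CommRing B] [Algebra k B] [Algebra.FiniteType k B]
    (htan : ∀ m : Ideal B, m.IsMaximal → ∃ a ∈ m, ∃ b ∈ m, m ≤ Ideal.span {a, b} ⊔ m ^ 2)
    (J : Ideal B) (hJ : Module.Finite k (B ⧸ J)) :
    Module.Finite k (B ⧸ Ideal.span ((fun x => x ^ p) '' (J : Set B))) ∧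
    Module.finrank k (B ⧸ Ideal.span ((fun x => x ^ p) '' (J : Set B))) ≤
      p ^ 2 * Module.finrank k (B ⧸ J) := sorry

end

end Pool.Agent.H54R2.Ul
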