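import Pool.Agent.H54R2.Ul.Defs3

namespace Pool.Agent.H54R2.Ul

open MvPolynomial

noncomputable section

variable {k K : Type} [Field k] [Field K] [Algebra k K]

/-- **Task TB2.** A linear form missing the zero set. -/
theorem TB2 [IsAlgClosed k] (G : Geo k K) (J : ℤ → Submodule k K) (hJR : ∀ t, J t ≤ G.R t)
    (hmul : ∀ (s t : ℤ) (a x : K), a ∈ G.R s → x ∈ J t → a * x ∈ J (s + t))
    (C : ℕ) (hC : ∀ t, Module.finrank k (G.R t) ≤ Module.finrank k (J t) + C) :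
    ∃ y : K, y ∈ G.R 1 ∧ y ≠ 0 ∧ ∀ q : ℕ, 0 < q → ∃ t0 : ℤ, ∀ t ≥ t0, ∀ x ∈ G.R (t + 1),
      ∃ x' ∈ Jpow G.toFil q J (t + 1), ∃ z ∈ G.R t, x = x' + y * z := sorry

end

end Pool.Agent.H54R2.Ul
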