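import Pool.Agent.H54R2.Ul.Defs3

namespace Pool.Agent.H54R2.Ul

open MvPolynomial

noncomputable section

variable {k K : Type} [Field k] [Field K] [Algebra k K]

/-- **Task GC1.** Normal forms with `b_i = 0`: the exponent at `i` is small and the monomial is
determined by its restriction to the boundary curve. -/
theorem GC1 (t : ℤ) (i : ZMod 5) (a a' : ZMod 5 → ℕ) (ha : Allowed t a) (ha' : Allowed t a')
    (hn : NF a) (hn' : NF a') (h0 : (a (i + 2) : ℤ) + a (i + 3) = t + a i)
    (h0' : (a' (i + 2) : ℤ) + a' (i + 3) = t + a' i) :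
    a i < 7 ∧ (a i = a' i → a (i + 1) % 7 = a' (i + 1) % 7 → a (i + 2) % 7 = a' (i + 2) % 7 →
      (t + a (i + 1) - a (i + 3) - a (i + 4) : ℤ) = t + a' (i + 1) - a' (i + 3) - a' (i + 4) →
      a = a') := sorry

end

end Pool.Agent.H54R2.Ul
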