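import Pool.Agent.H54R2.Ul.Defs3

namespace Pool.Agent.H54R2.Ul

open MvPolynomial

noncomputable section

variable {k K : Type} [Field k] [Field K] [Algebra k K]

/-- **Task GH1.** The twelve charts. -/
theorem GH1 {Q : Type} [CommRing Q] [Algebra k Q] (e : V22 → Q)
    (he : ∀ f ∈ II k, aeval e f = 0) :
    (∀ (c : Fin 12) (i : ZMod 5),
      ((chSg c i : Q) * e (chZ c i)) ^ 7 * e (chC c) ^ 7 +
        ((chSg c (i - 1) : Q) * e (chZ c (i - 1))) ^ 7 *
          ((chSg c (i + 1) : Q) * e (chZ c (i + 1))) ^ 7 = e (chC c) ^ 14) ∧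
    (∀ (c : Fin 12) (v : V22), e v * e (chC c) ^ (∑ i, chE c v i) =
      e (chC c) * ∏ i, e (chZ c i) ^ chE c v i) ∧
    (∀ v : V22, ∃ (c c' : Fin 12) (s s' : ℤ),
      e v ^ 7 = (s : Q) * e (chC c) ^ 7 + (s' : Q) * e (chC c') ^ 7) := sorry

end

end Pool.Agent.H54R2.Ul
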