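import Pool.Agent.H54R2.Ul.Defs3

namespace Pool.Agent.H54R2.Ul

open MvPolynomial

noncomputable section

variable {k K : Type} [Field k] [Field K] [Algebra k K]

/-- **Task GH3.** Linear algebra of the Jacobian matrix. -/
theorem GH3 (h7 : (7 : k) ≠ 0) {V : Type} [AddCommGroup V] [Module k V] (q : ZMod 5 → k)
    (hq : ∀ i, q i ^ 7 + q (i - 1) ^ 7 * q (i + 1) ^ 7 = 1) (d : ZMod 5 → V)
    (hd : ∀ i, (q i ^ 6) • d i + (q (i - 1) ^ 6 * q (i + 1) ^ 7) • d (i - 1) +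
      (q (i - 1) ^ 7 * q (i + 1) ^ 6) • d (i + 1) = 0) :
    ∃ i j : ZMod 5, ∀ l, d l ∈ Submodule.span k {d i, d j} := sorry

end

end Pool.Agent.H54R2.Ul
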