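import Pool.Agent.H54R2.Ul.Defs3

namespace Pool.Agent.H54R2.Ul

open MvPolynomial

noncomputable section

variable {k K : Type} [Field k] [Field K] [Algebra k K]

/-- **Task GH2.** Points with values in a square-zero extension. -/
theorem GH2 (h7 : (7 : k) ≠ 0) {Q : Type} [CommRing Q] [Algebra k Q] (ev : Q →ₐ[k] k)
    (hsq : ∀ x y, ev x = 0 → ev y = 0 → x * y = 0) (e : V22 → Q)
    (he : ∀ f ∈ II k, aeval e f = 0) (hne : ∃ v, ev (e v) ≠ 0) :
    ∃ w a b : Q, ev w = 0 ∧ ev a = 0 ∧ ev b = 0 ∧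
      ∀ v, e v - algebraMap k Q (ev (e v)) - (ev (e v)) • w ∈ Submodule.span k {a, b} := sorry

end

end Pool.Agent.H54R2.Ul
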