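import Pool.Agent.H54R2.Ul.Defs3

namespace Pool.Agent.H54R2.Ul

open MvPolynomial

noncomputable section

variable {k K : Type} [Field k] [Field K] [Algebra k K]

/-- **Task GA1.** Universal property of the filtration of a model: a function on the allowed
monomials which respects the relations extends to a linear map. -/
theorem GA1 (M : Model k K) {E : Type} [AddCommGroup E] [Module k E] (t : ℤ)
    (φ : (ZMod 5 → ℕ) → E)
    (hφ : ∀ (i : ZMod 5) (a : ZMod 5 → ℕ), Allowed t (a + ee (i - 1) 7 + ee (i + 1) 7) →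
      φ (a + ee (i - 1) 7 + ee (i + 1) 7) + φ (a + ee i 7) = φ a) :
    ∃ ψ : M.RM t →ₗ[k] E, ∀ (a : ZMod 5 → ℕ) (ha : Allowed t a),
      ψ ⟨zm M.z a, M.mem_RM ha⟩ = φ a := sorry

/-- **Task GA2.** Normal forms span. -/
theorem GA2 (M : Model k K) (t : ℤ) (P : (ZMod 5 → ℕ) → Prop)
    (hP : ∀ (i : ZMod 5) (a : ZMod 5 → ℕ), P (a + ee (i - 1) 7 + ee (i + 1) 7) →
      Allowed t (a + ee (i - 1) 7 + ee (i + 1) 7) → P a ∧ P (a + ee i 7)) :
    ∀ a : ZMod 5 → ℕ, P a → Allowed t a →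
      zm M.z a ∈ Submodule.span k {x | ∃ b, NF b ∧ Allowed t b ∧ P b ∧ x = zm M.z b} := sorry

/-- **Task GA3.** Homomorphisms out of the affine coordinate ring. -/
theorem GA3 (M : Model k K) {E : Type} [CommRing E] [Algebra k E] (e : ZMod 5 → E)
    (he : ∀ i, e i ^ 7 + e (i - 1) ^ 7 * e (i + 1) ^ 7 = 1) :
    ∃ φ : M.B →ₐ[k] E, ∀ i, φ ⟨M.z i, Algebra.subset_adjoin ⟨i, rfl⟩⟩ = e i := sorry

/-- **Task GA4.** Linear relations between products of 22 coordinates: for a polynomial which is a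
linear combination of allowed monomials and vanishes on the surface. -/
theorem GA4 (M : Model k K) (t : ℤ) (c : (ZMod 5 → ℕ) →₀ k) (hc : ∀ a ∈ c.support, Allowed t a)
    (h0 : (c.sum fun a s => s • zm M.z a) = 0) :
    c ∈ Submodule.span k {f | ∃ (i : ZMod 5) (a : ZMod 5 → ℕ),
      Allowed t (a + ee (i - 1) 7 + ee (i + 1) 7) ∧
      f = Finsupp.single (a + ee (i - 1) 7 + ee (i + 1) 7) 1 + Finsupp.single (a + ee i 7) 1
        - Finsupp.single a 1} := sorry

end

end Pool.Agent.H54R2.Ul
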