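import Pool.Agent.H54R2.Ul.Defs3

namespace Pool.Agent.H54R2.Ul

open MvPolynomial

noncomputable section

variable {k K : Type} [Field k] [Field K] [Algebra k K]

/-- **Task GJ1.** The Jacobian determinant. -/
theorem GJ1 (M : Model k K) : (jacM M.z).det = 343 * M.J := sorry

end

end Pool.Agent.H54R2.Ul
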