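import Pool.Agent.H54R2.Ul.Defs3

namespace Pool.Agent.H54R2.Ul

open MvPolynomial

noncomputable section

variable {k K : Type} [Field k] [Field K] [Algebra k K]

/-- **Task GK0.** The trace form of a small reduced algebra. -/
theorem GK0 {κ Λ : Type} [Field κ] (p : ℕ) [Fact p.Prime] [CharP κ p] [CommRing Λ] [Algebra κ Λ]
    [Module.Finite κ Λ] [IsReduced Λ] (hd : Module.finrank κ Λ < p) (y : Λ) (hy : y ≠ 0) :
    ∃ z : Λ, Algebra.trace κ Λ (y * z) ≠ 0 := sorry

end

end Pool.Agent.H54R2.Ul
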