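import Pool.Agent.H54R2.Ul.Defs3

namespace Pool.Agent.H54R2.Ul

open MvPolynomial

noncomputable section

variable {k K : Type} [Field k] [Field K] [Algebra k K]

/-- **Task KR3.** -/
theorem KR3 {A : Type} [CommRing A] [IsDomain A] [IsNoetherianRing A] (q : Ideal A)
    (hq : HtOne q) [q.IsPrime] : IsDiscreteValuationRing (Localization.AtPrime q) := sorry

end

end Pool.Agent.H54R2.Ul
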