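import Pool.Agent.H54R2.Ul.Defs3

namespace Pool.Agent.H54R2.Ul

open MvPolynomial

noncomputable section

variable {k K : Type} [Field k] [Field K] [Algebra k K]

/-- **Task FRACP.** -/
theorem FRACP (G : Fil k K)
    (hfrac : ∀ x : K, ∃ t : ℤ, ∃ a ∈ G.R t, ∃ b ∈ G.R t, b ≠ 0 ∧ x = a / b) :
    IsFractionRing G.Rg (FractionRing (Polynomial K)) := sorry

end

end Pool.Agent.H54R2.Ul
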