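import Pool.Agent.H54R2.Ul.Defs3

namespace Pool.Agent.H54R2.Ul

open MvPolynomial

noncomputable section

variable {k K : Type} [Field k] [Field K] [Algebra k K]

/-- **Task INL.** `InLoc` is a subring. -/
theorem InLoc_zero (G : Fil k K) (q : Ideal G.Rg) (hq : q.IsPrime) : InLoc G q 0 := sorry

theorem InLoc_one (G : Fil k K) (q : Ideal G.Rg) (hq : q.IsPrime) : InLoc G q 1 := sorry

theorem InLoc_add (G : Fil k K) (q : Ideal G.Rg) (hq : q.IsPrime)
    {x y : FractionRing (Polynomial K)} (hx : InLoc G q x) (hy : InLoc G q y) :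
    InLoc G q (x + y) := sorry

theorem InLoc_mul (G : Fil k K) (q : Ideal G.Rg) (hq : q.IsPrime)
    {x y : FractionRing (Polynomial K)} (hx : InLoc G q x) (hy : InLoc G q y) :
    InLoc G q (x * y) := sorry

theorem InLoc_neg (G : Fil k K) (q : Ideal G.Rg) (hq : q.IsPrime)
    {x : FractionRing (Polynomial K)} (hx : InLoc G q x) : InLoc G q (-x) := sorry

theorem InLoc_pow (G : Fil k K) (q : Ideal G.Rg) (hq : q.IsPrime)
    {x : FractionRing (Polynomial K)} (hx : InLoc G q x) (n : ℕ) : InLoc G q (x ^ n) := sorry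

theorem InLoc_sum (G : Fil k K) (q : Ideal G.Rg) (hq : q.IsPrime) {ι : Type} (s : Finset ι)
    (f : ι → FractionRing (Polynomial K)) (hf : ∀ i ∈ s, InLoc G q (f i)) :
    InLoc G q (∑ i ∈ s, f i) := sorry

theorem InLoc_prod (G : Fil k K) (q : Ideal G.Rg) (hq : q.IsPrime) {ι : Type} (s : Finset ι)
    (f : ι → FractionRing (Polynomial K)) (hf : ∀ i ∈ s, InLoc G q (f i)) :
    InLoc G q (∏ i ∈ s, f i) := sorry

/-- sections are locally regular (for `t < 0` the element `y` is zero) -/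
theorem InLoc_xT (G : Fil k K) (q : Ideal G.Rg) (hq : q.IsPrime) (t : ℤ) (y : K)
    (hy : y ∈ G.R t) : InLoc G q (xT y t) := sorry

/-- globally regular elements of degree `t` are sections -/
theorem mem_R_of_xT (G : Fil k K) (t : ℤ) (x : K) (a : G.Rg)
    (h : xT x t = algebraMap (Polynomial K) (FractionRing (Polynomial K)) a.1) : x ∈ G.R t := sorry

theorem xT_mul (x y : K) (m n : ℤ) : xT x m * xT y n = xT (x * y) (m + n) := sorry

theorem xT_add (x y : K) (m : ℤ) : xT (x + y) m = xT x m + xT y m := sorry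

theorem xT_sum {ι : Type} (s : Finset ι) (f : ι → K) (m : ℤ) :
    xT (∑ i ∈ s, f i) m = ∑ i ∈ s, xT (f i) m := sorry

theorem xT_pow (x : K) (m : ℤ) (n : ℕ) : xT x m ^ n = xT (x ^ n) (n * m) := sorry

theorem xT_ne_zero {x : K} (hx : x ≠ 0) (m : ℤ) : xT x m ≠ 0 := sorry

end

end Pool.Agent.H54R2.Ul
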