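import Pool.Agent.H54R2.Ul.Defs3

namespace Pool.Agent.H54R2.Ul

open MvPolynomial

noncomputable section

variable {k K : Type} [Field k] [Field K] [Algebra k K]

/-- **Task KR1.** -/
theorem KR1 {A K : Type} [CommRing A] [IsDomain A] [IsNoetherianRing A] [IsIntegrallyClosed A]
    [Field K] [Algebra A K] [IsFractionRing A K] (x : K)
    (hx : ∀ q : Ideal A, HtOne q → ∃ a s : A, s ∉ q ∧ x * algebraMap A K s = algebraMap A K a) :
    ∃ a : A, x = algebraMap A K a := sorry

end

end Pool.Agent.H54R2.Ul
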