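import Pool.Agent.H54R2.Ul.Defs3

namespace Pool.Agent.H54R2.Ul

open MvPolynomial

noncomputable section

variable {k K : Type} [Field k] [Field K] [Algebra k K]

/-- **Task LOC.** Local structure of the lattice spanned by an Ulrich datum at a height-one prime
of the homogeneous coordinate ring. -/
theorem LOC (G : Geo k K) {N r : ℕ} (c : Fin N → Fin r → K) (hc : IsDatum G.toFil c)
    (q : Ideal G.toFil.Rg) (hq : HtOne q) : Nonempty (LocD G.toFil c q) := sorry

end

end Pool.Agent.H54R2.Ul
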