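import Pool.Agent.H54R2.Ul.Defs3

namespace Pool.Agent.H54R2.Ul

open MvPolynomial

noncomputable section

variable {k K : Type} [Field k] [Field K] [Algebra k K]

/-- **Task RHO.** Additivity of the Frobenius extends to the fraction field. -/
theorem hadd_frac (G : Geo k K) (n : ℕ) (hn : 0 < n)
    (hadd : ∀ x y : K, (x + y) ^ n = x ^ n + y ^ n) (x y : FractionRing (Polynomial K)) :
    (x + y) ^ n = x ^ n + y ^ n := sorry

/-- local coordinates of sections are locally regular -/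
theorem RHO1 (G : Geo k K) {N r : ℕ} (c : Fin N → Fin r → K) (q : Ideal G.toFil.Rg)
    (hq : HtOne q) (D : LocD G.toFil c q) (n : ℕ) (hn : 0 < n)
    (hadd : ∀ x y : K, (x + y) ^ n = x ^ n + y ^ n) (t : ℤ) (u : Fin r ⊕ Fin r → K)
    (hu : u ∈ UU G.toFil n c t) (l : Fin r ⊕ Fin r) : InLoc G.toFil q (D.rho n t u l) := sorry

/-- the determinant of the local coordinates -/
theorem RHO2 (G : Geo k K) {N r : ℕ} (c : Fin N → Fin r → K) (q : Ideal G.toFil.Rg)
    (D : LocD G.toFil c q) (n : ℕ) (hn : 0 < n)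
    (hadd : ∀ x y : K, (x + y) ^ n = x ^ n + y ^ n) (t : Fin r ⊕ Fin r → ℤ)
    (u : Fin r ⊕ Fin r → Fin r ⊕ Fin r → K) :
    Matrix.det (Matrix.of fun i => D.rho n (t i) (u i)) =
      xT (Matrix.det (Matrix.of u)) (∑ i, t i + 8 * n * r) := sorry

end

end Pool.Agent.H54R2.Ul
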