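import Pool.Agent.H54R2.Ul.Defs3

namespace Pool.Agent.H54R2.Ul

open MvPolynomial

noncomputable section

variable {k K : Type} [Field k] [Field K] [Algebra k K]

/-- **Task CH.** Chern classes of the Frobenius pullback. -/
theorem CH [IsAlgClosed k] (p : ℕ) [Fact p.Prime] [CharP k p] (G : Geo k K) {N r : ℕ}
    (c : Fin N → Fin r → K) (hc : IsDatum G.toFil c) (hr : 0 < r) :
    ∃ (a : ℤ) (l : ℕ) (t0 : ℤ), 0 ≤ a ∧ ∀ t ≥ t0,
      (Module.finrank k (UU G.toFil 1 c (t + a)) : ℤ) + l =
        (2 * r - 1) * Module.finrank k (G.R t) +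
          Module.finrank k (G.R (t + r * (8 + 2 * a))) ∧
      (Module.finrank k (UU G.toFil p c (t + p * a)) : ℤ) ≤
        (2 * r - 1) * Module.finrank k (G.R t) +
          Module.finrank k (G.R (t + p * (r * (8 + 2 * a)))) ∧
      (2 * r - 1) * (Module.finrank k (G.R t) : ℤ) +
          Module.finrank k (G.R (t + p * (r * (8 + 2 * a)))) ≤
        Module.finrank k (UU G.toFil p c (t + p * a)) + (p : ℤ) ^ 2 * l := sorry

end

end Pool.Agent.H54R2.Ul
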