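import Pool.Agent.H54R2.Ul.Defs3

namespace Pool.Agent.H54R2.Ul

open MvPolynomial

noncomputable section

variable {k K : Type} [Field k] [Field K] [Algebra k K]

/-- **Task DU2.** -/
theorem DU2 [IsAlgClosed k] (p : ℕ) [Fact p.Prime] [CharP k p] (G : Geo k K) {N r : ℕ}
    (c : Fin N → Fin r → K) (hc : IsDatum G.toFil c) :
    ∃ P : Polynomial ℚ,
      (∃ t0 : ℤ, ∀ t ≥ t0, (Module.finrank k (UU G.toFil p c t) : ℚ) = P.eval (t : ℚ)) ∧
      ∀ t : ℤ, P.eval (t : ℚ) ≤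
        Module.finrank k (UU G.toFil p c t) + Module.finrank k (UU G.toFil p c (5 - 8 * p - t)) :=
  sorry

end

end Pool.Agent.H54R2.Ul
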