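import Pool.Agent.H54R2.Ul.Defs3

namespace Pool.Agent.H54R2.Ul

open MvPolynomial

noncomputable section

variable {k K : Type} [Field k] [Field K] [Algebra k K]

/-- **Task DUAL.** -/
theorem DUAL (p : ℕ) [Fact p.Prime] [CharP k p] (hp : 1715 < p) (G : Geo k K) {N r : ℕ}
    (c : Fin N → Fin r → K) (hc : IsDatum G.toFil c) :
    ∃ c' : Fin N → Fin r → K, IsDatum G.toFil c' ∧
      (∀ t : ℤ, Module.finrank k (W2 G.toFil p c t) ≤
        Module.finrank k (W1 G.toFil p c' (t + 8 * p))) ∧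
      ∀ t : ℤ, 0 ≤ t → (N : ℤ) * (t + 1) * (t + 2) ≤
        2 * Module.finrank k (W1 G.toFil 1 c (t + 8)) := sorry

end

end Pool.Agent.H54R2.Ul
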