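import Pool.Agent.H54R2.Ul.Defs3

namespace Pool.Agent.H54R2.Ul

open MvPolynomial

noncomputable section

variable {k K : Type} [Field k] [Field K] [Algebra k K]

/-- **Task FIN.** There is no Ulrich sheaf of rank `r` in large characteristic. -/
theorem FIN [IsAlgClosed k] (p : ℕ) [Fact p.Prime] [CharP k p] (G : Geo k K)
    (hder : HasDer G.toFil p) {N r : ℕ} (c : Fin N → Fin r → K) (hc : IsDatum G.toFil c)
    (hr : 0 < r) (hp : 10 ^ 9 * r < p) : False := sorry

end

end Pool.Agent.H54R2.Ul
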