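import Pool.Agent.H54R2.Ul.Defs3

namespace Pool.Agent.H54R2.Ul

open MvPolynomial

noncomputable section

/-- **Task GB1.** The function field of the del Pezzo surface of degree five. -/
theorem GB1 (k : Type) [Field k] (h7 : (7 : k) ≠ 0) :
    ∃ (F : Type) (_ : Field F) (_ : Algebra k F) (s : ZMod 5 → F),
      (∀ i, s i + s (i - 1) * s (i + 1) = 1) ∧ (∀ i, s i ≠ 0) ∧
      LinearIndependent k (fun m : {m : ZMod 5 → ℕ // ∀ i, m i = 0 ∨ m (i + 2) = 0} =>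
        ∏ i, s i ^ m.1 i) ∧
      (∀ g : ZMod 5 → ℤ, (∃ f : F, f ^ 7 = ∏ i, s i ^ g i) → ∀ i, 7 ∣ g i) ∧
      (∀ x : F, ∃ f g : MvPolynomial (ZMod 5) k, aeval s g ≠ 0 ∧ x * aeval s g = aeval s f) := sorry

end

end Pool.Agent.H54R2.Ul
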