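import Pool.Agent.H54R2.Ul.Defs3

namespace Pool.Agent.H54R2.Ul

open MvPolynomial

noncomputable section

/-- **Task GB2.** Adjoining seventh roots. -/
theorem GB2 (k : Type) [Field k] [IsAlgClosed k] (h7 : (7 : k) ≠ 0) (F : Type) [Field F]
    [Algebra k F] (s : ZMod 5 → F) (hrel : ∀ i, s i + s (i - 1) * s (i + 1) = 1)
    (h0 : ∀ i, s i ≠ 0)
    (hind : LinearIndependent k (fun m : {m : ZMod 5 → ℕ // ∀ i, m i = 0 ∨ m (i + 2) = 0} =>
        ∏ i, s i ^ m.1 i))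
    (hkum : ∀ g : ZMod 5 → ℤ, (∃ f : F, f ^ 7 = ∏ i, s i ^ g i) → ∀ i, 7 ∣ g i)
    (hfr : ∀ x : F, ∃ f g : MvPolynomial (ZMod 5) k,
      aeval s g ≠ 0 ∧ x * aeval s g = aeval s f) :
    ∃ (K : Type) (_ : Field K) (_ : Algebra k K), Nonempty (Model k K) := sorry

end

end Pool.Agent.H54R2.Ul
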