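import Pool.Agent.H54R2.Ul.Defs3

namespace Pool.Agent.H54R2.Ul

open MvPolynomial

noncomputable section

variable {k K : Type} [Field k] [Field K] [Algebra k K]

/-- **Task GC2.** The number of normal forms in each degree. -/
theorem GC2 (t : ℤ) (ht : 6 ≤ t) :
    2 * (Set.ncard {a : ZMod 5 → ℕ | NF a ∧ Allowed t a} : ℤ) =
      1715 * t ^ 2 - 8575 * t + 9604 := sorry

end

end Pool.Agent.H54R2.Ul
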