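import Pool.Agent.H54R2.Ul.Defs3

namespace Pool.Agent.H54R2.Ul

open MvPolynomial

noncomputable section

variable {k K : Type} [Field k] [Field K] [Algebra k K]

/-- **Task GD.** Petersen's theorem for five vertices. -/
theorem GD (t : ℤ) (ht : 0 ≤ t) (a : ZMod 5 → ℕ) (ha : Allowed (t + 1) a) :
    ∃ b c : ZMod 5 → ℕ, a = b + c ∧ Allowed 1 b ∧ Allowed t c ∧ ∀ i, b i ≤ 2 := sorry

end

end Pool.Agent.H54R2.Ul
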