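import Pool.Agent.H54R2.Ul.Defs3

namespace Pool.Agent.H54R2.Ul

open MvPolynomial

noncomputable section

variable {k K : Type} [Field k] [Field K] [Algebra k K]

/-- **Task GE1.** The boundary of the surface (uses GE1a, GE1b, GC1, GA2). -/
theorem GE1 [IsAlgClosed k] (h7 : (7 : k) ≠ 0) (h2 : (2 : k) ≠ 0) (M : Model k K) :
    Nonempty (Bdry M.fil) := sorry

end

end Pool.Agent.H54R2.Ul
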