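import Pool.Agent.H54R2.Ul.Defs3

namespace Pool.Agent.H54R2.Ul

open MvPolynomial

noncomputable section

variable {k K : Type} [Field k] [Field K] [Algebra k K]

/-- **Task GE1a.** Restriction to a boundary curve. -/
theorem GE1a (M : Model k K) (i : ZMod 5) {D : Type} [CommRing D] [Algebra k D]
    (α β γ ζ ζ' : D) (h : γ ^ 7 = α ^ 7 + β ^ 7) (hζ : ζ ^ 7 = 1) (hζ' : ζ' ^ 7 = 1) :
    ∃ ρ : ∀ t : ℤ, M.RM t →ₗ[k] D, ∀ (t : ℤ) (a : ZMod 5 → ℕ) (ha : Allowed t a),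
      ρ t ⟨zm M.z a, M.mem_RM ha⟩ =
        if t + a i - a (i + 2) - a (i + 3) = 0 then
          ζ ^ a (i + 1) * (-ζ') ^ a (i + 2) * β ^ a i *
            γ ^ (t + a (i + 1) - a (i + 3) - a (i + 4)).toNat *
            α ^ (t + a (i + 4) - a (i + 1) - a (i + 2)).toNat
        else 0 := sorry

end

end Pool.Agent.H54R2.Ul
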