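import Pool.Agent.H54R2.Ul.Defs3

namespace Pool.Agent.H54R2.Ul

open MvPolynomial

noncomputable section

variable {k K : Type} [Field k] [Field K] [Algebra k K]

/-- **Task GE1b.** The coordinate ring of the Fermat curve. -/
theorem GE1b (k : Type) [Field k] [IsAlgClosed k] (h7 : (7 : k) ≠ 0) :
    ∃ (D : Type) (_ : CommRing D) (_ : IsDomain D) (_ : Algebra k D) (α β γ : D)
      (gr : ℤ → Submodule k D),
      γ ^ 7 = α ^ 7 + β ^ 7 ∧
      LinearIndependent k (fun x : {x : ℕ × ℕ × ℕ // x.1 < 7} =>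
        β ^ x.1.1 * γ ^ x.1.2.1 * α ^ x.1.2.2) ∧
      iSupIndep gr ∧ (∀ u v w : ℕ, β ^ u * γ ^ v * α ^ w ∈ gr (u + v + w)) ∧
      ∀ s l m : k, s ≠ 0 → m ^ 7 + l ^ 7 ≠ 0 →
        AlgebraicIndependent k ![s • β, m • γ + l • α] ∧
        (MvPolynomial.aeval ![s • β, m • γ + l • α] :
          MvPolynomial (Fin 2) k →ₐ[k] D).toRingHom.Finite := sorry

end

end Pool.Agent.H54R2.Ul
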