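import Pool.Agent.H54R2.Ul.Defs3

namespace Pool.Agent.H54R2.Ul

open MvPolynomial

noncomputable section

variable {k K : Type} [Field k] [Field K] [Algebra k K]

/-- **Task GE2.** Consequences of the boundary structure. -/
theorem GE2 (G : Fil k K) (hfd : ∀ t : ℤ, Module.Finite k (G.R t)) (S : Bdry G) :
    (∀ (s t : ℤ) (g x : K), g ∈ AA k G.Y1 G.Y2 s → g ∉ AA k G.Y1 G.Y2 (s - 1) → x ∈ G.R t →
      g * x ∈ G.R (s + t - 1) → x ∈ G.R (t - 1)) ∧
    (∀ (t : ℤ) (n : ℕ) (x : K), 0 < n → x ∈ G.R t → x ^ n ∈ G.R (n * t - 1) →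
      x ∈ G.R (t - 1)) := sorry

end

end Pool.Agent.H54R2.Ul
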