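import Pool.Agent.H54R2.Ul.Defs3

namespace Pool.Agent.H54R2.Ul

open MvPolynomial

noncomputable section

variable {k K : Type} [Field k] [Field K] [Algebra k K]

/-- **Task GE3.** Finite generation over `k[y0,y1,y2]`. -/
theorem GE3 (G : Fil k K) (hfd : ∀ t : ℤ, Module.Finite k (G.R t)) (S : Bdry G) :
    ∃ t0 : ℤ, ∀ t : ℤ, t0 ≤ t → ∀ x ∈ G.R (t + 1),
      ∃ a ∈ G.R t, ∃ b ∈ G.R t, ∃ c ∈ G.R t, x = a + G.Y1 * b + G.Y2 * c := sorry

end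

end Pool.Agent.H54R2.Ul
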