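import Pool.Agent.H54R2.Ul.Defs3

namespace Pool.Agent.H54R2.Ul

open MvPolynomial

noncomputable section

variable {k K : Type} [Field k] [Field K] [Algebra k K]

/-- **Task GF1.** Isotypic decomposition under the group `μ_7^5`. -/
theorem GF1 [IsAlgClosed k] (h7 : (7 : k) ≠ 0) (M : Model k K) (x : K) (hx : IsIntegral M.B x) :
    ∃ c : (ZMod 5 → Fin 7) → K,
      (∀ a, c a ∈ IntermediateField.adjoin k {M.z 0 ^ 7, M.z 1 ^ 7}) ∧
      (∀ a, IsIntegral M.B (zm M.z (fun i => (a i).val) * c a)) ∧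
      x = ∑ a : ZMod 5 → Fin 7, zm M.z (fun i => (a i).val) * c a := sorry

end

end Pool.Agent.H54R2.Ul
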