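import Pool.Agent.H54R2.Ul.Defs3

namespace Pool.Agent.H54R2.Ul

open MvPolynomial

noncomputable section

variable {k K : Type} [Field k] [Field K] [Algebra k K]

/-- **Task GF2.** Integral isotypic elements are regular. -/
theorem GF2 (h7 : (7 : k) ≠ 0) (M : Model k K) (a : ZMod 5 → ℕ) (ha : ∀ i, a i < 7) (c : K)
    (hc : c ∈ IntermediateField.adjoin k {M.z 0 ^ 7, M.z 1 ^ 7})
    (hx : IsIntegral M.B (zm M.z a * c)) : c ∈ M.B := sorry

end

end Pool.Agent.H54R2.Ul
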