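import Pool.Agent.H54R2.Ul.Defs3

namespace Pool.Agent.H54R2.Ul

open MvPolynomial

noncomputable section

variable {k K : Type} [Field k] [Field K] [Algebra k K]

/-- **Task GG1.** The homogeneous coordinate ring is integrally closed. -/
theorem GG1 [Infinite k] (G : Fil k K)
    (hfrac : ∀ x : K, ∃ t : ℤ, ∃ a ∈ G.R t, ∃ b ∈ G.R t, b ≠ 0 ∧ x = a / b)
    (hB : ∀ x : K, IsIntegral G.BB x → x ∈ G.BB)
    (hred : ∀ (t : ℤ) (n : ℕ) (x : K), 0 < n → x ∈ G.R t → x ^ n ∈ G.R (n * t - 1) →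
      x ∈ G.R (t - 1)) :
    IsIntegrallyClosed G.Rg := sorry

end

end Pool.Agent.H54R2.Ul
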