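import Pool.Agent.H54R2.Ul.Defs3

namespace Pool.Agent.H54R2.Ul

open MvPolynomial

noncomputable section

variable {k K : Type} [Field k] [Field K] [Algebra k K]

/-- **Task GG2.** The homogeneous coordinate ring is Noetherian. -/
theorem GG2 (G : Fil k K) (hfd : ∀ t : ℤ, Module.Finite k (G.R t))
    (hgen : ∀ t : ℤ, 0 ≤ t →
      G.R (t + 1) ≤ Submodule.span k {x | ∃ a ∈ G.R 1, ∃ b ∈ G.R t, x = a * b}) :
    IsNoetherianRing G.Rg := sorry

end

end Pool.Agent.H54R2.Ul
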