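import Pool.Agent.H54R2.Ul.Defs3

namespace Pool.Agent.H54R2.Ul

open MvPolynomial

noncomputable section

variable {k K : Type} [Field k] [Field K] [Algebra k K]

/-- **Task GH4.** Smoothness of the affine pieces. -/
theorem GH4 [IsAlgClosed k] (h7 : (7 : k) ≠ 0) (M : Model k K)
    (hgen : ∀ t : ℤ, 0 ≤ t →
      M.RM (t + 1) ≤ Submodule.span k {x | ∃ a ∈ M.RM 1, ∃ b ∈ M.RM t, x = a * b})
    (y : K) (hy : y ∈ M.fil.R 1) (hy0 : y ≠ 0) (m : Ideal (M.fil.By y hy)) (hm : m.IsMaximal) :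
    ∃ a ∈ m, ∃ b ∈ m, m ≤ Ideal.span {a, b} ⊔ m ^ 2 := sorry

end

end Pool.Agent.H54R2.Ul
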