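import Pool.Agent.H54R2.Ul.Defs3

namespace Pool.Agent.H54R2.Ul

open MvPolynomial

noncomputable section

variable {k K : Type} [Field k] [Field K] [Algebra k K]

/-- **Task GH5.** Smoothness of the projective surface (tangent spaces of the cone). -/
theorem GH5 (h7 : (7 : k) ≠ 0) (P : V22 → k) (hP : ∀ f ∈ II k, eval P f = 0) (hP0 : P ≠ 0)
    (T : Submodule k (V22 → k))
    (hT : ∀ v ∈ T, ∀ f ∈ II k, ∑ j, eval P (pderiv j f) * v j = 0) :
    Module.finrank k T ≤ 3 := sorry

end

end Pool.Agent.H54R2.Ul
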