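import Pool.Agent.H54R2.Ul.Defs3

namespace Pool.Agent.H54R2.Ul

open MvPolynomial

noncomputable section

variable {k K : Type} [Field k] [Field K] [Algebra k K]

/-- **Task GI1.** The two Hamiltonian derivations. -/
theorem GI1 (h7 : (7 : k) ≠ 0) (M : Model k K) :
    ∃ D0 D1 : Derivation k K K,
      (D0 (M.z 0) = 0 ∧ D0 (M.z 1) = M.z 0 * M.z 1 * M.Pi6 ∧ D0 (M.z 4) = -(M.z 4 * M.z 0 * M.Pi6) ∧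
        D0 (M.z 2) = -(M.z 1 ^ 13 * M.z 3 ^ 6 * M.z 4 ^ 6) ∧
        D0 (M.z 3) = M.z 4 ^ 13 * M.z 1 ^ 6 * M.z 2 ^ 6) ∧
      (D1 (M.z 1) = 0 ∧ D1 (M.z 2) = M.z 1 * M.z 2 * M.Pi6 ∧ D1 (M.z 0) = -(M.z 0 * M.z 1 * M.Pi6) ∧
        D1 (M.z 3) = -(M.z 2 ^ 13 * M.z 4 ^ 6 * M.z 0 ^ 6) ∧
        D1 (M.z 4) = M.z 0 ^ 13 * M.z 2 ^ 6 * M.z 3 ^ 6) := sorry

end

end Pool.Agent.H54R2.Ul
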