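import Pool.Agent.H54R2.Ul.Defs3

namespace Pool.Agent.H54R2.Ul

open MvPolynomial

noncomputable section

variable {k K : Type} [Field k] [Field K] [Algebra k K]

/-- **Task GI2.** Derivations with such values have degree at most `20`. -/
theorem GI2 (M : Model k K) (D : Derivation k K K) (hD : ∀ i, D (M.z i) ∈ M.RM 8) (t : ℤ) (x : K)
    (hx : x ∈ M.RM t) : D x ∈ M.RM (t + 20) := sorry

end

end Pool.Agent.H54R2.Ul
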