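import Pool.Agent.H54R2.Ul.Defs3

namespace Pool.Agent.H54R2.Ul

open MvPolynomial

noncomputable section

variable {k K : Type} [Field k] [Field K] [Algebra k K]

/-- **Task GI3.** Common constants are `p`-th powers. -/
theorem GI3 (p : ℕ) [Fact p.Prime] [CharP k p] [IsAlgClosed k] (h7 : (7 : k) ≠ 0) (M : Model k K)
    (D0 D1 : Derivation k K K) (h00 : D0 (M.z 0) = 0) (h01 : D0 (M.z 1) ≠ 0)
    (h10 : D1 (M.z 0) ≠ 0) (h11 : D1 (M.z 1) = 0) (x : K) (h0 : D0 x = 0) (h1 : D1 x = 0) :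
    ∃ y : K, y ^ p = x := sorry

end

end Pool.Agent.H54R2.Ul
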