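import Pool.Agent.H54R2.Ul.Defs3

namespace Pool.Agent.H54R2.Ul

open MvPolynomial

noncomputable section

variable {k K : Type} [Field k] [Field K] [Algebra k K]

/-- **Task GJ2.** Affine duality. -/
theorem GJ2 (p : ℕ) [Fact p.Prime] [CharP k p] (hp : 1715 < p) (M : Model k K)
    (hdeg : Module.finrank (FF k M.Y1 M.Y2) K = 1715) (x : K)
    (hx : ∀ b ∈ M.B, algebraMap (FF k M.Y1 M.Y2) K (Algebra.trace (FF k M.Y1 M.Y2) K (x * b)) ∈ M.B) :
    M.J * x ∈ M.B := sorry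

end

end Pool.Agent.H54R2.Ul
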