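import Pool.Agent.H54R2.Ul.Defs3

namespace Pool.Agent.H54R2.Ul

open MvPolynomial

noncomputable section

variable {k K : Type} [Field k] [Field K] [Algebra k K]

/-- **Task GK.** Duality at infinity. -/
theorem GK (p : ℕ) [Fact p.Prime] [CharP k p] (hp : 1715 < p) (G : Fil k K)
    (algInd : AlgebraicIndependent k ![G.Y1, G.Y2])
    (fin_dim : ∀ t : ℤ, Module.Finite k (G.R t))
    (fin_gen : ∃ t0 : ℤ, ∀ t : ℤ, t0 ≤ t → ∀ x ∈ G.R (t + 1),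
      ∃ a ∈ G.R t, ∃ b ∈ G.R t, ∃ c ∈ G.R t, x = a + G.Y1 * b + G.Y2 * c)
    (frac : ∀ x : K, ∃ t : ℤ, ∃ a ∈ G.R t, ∃ b ∈ G.R t, b ≠ 0 ∧ x = a / b)
    (sat : ∀ (s t : ℤ) (g x : K), g ∈ AA k G.Y1 G.Y2 s → g ∉ AA k G.Y1 G.Y2 (s - 1) →
      x ∈ G.R t → g * x ∈ G.R (s + t - 1) → x ∈ G.R (t - 1))
    (red : ∀ (t : ℤ) (n : ℕ) (x : K), 0 < n → x ∈ G.R t → x ^ n ∈ G.R (n * t - 1) →
      x ∈ G.R (t - 1))
    (degree : Module.finrank (FF k G.Y1 G.Y2) K = 1715) (j : ℤ) (x : K)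
    (hx : ∀ (s : ℤ) (a : K), a ∈ G.R s →
      algebraMap (FF k G.Y1 G.Y2) K (Algebra.trace (FF k G.Y1 G.Y2) K (x * a)) ∈
        AA k G.Y1 G.Y2 (s + j)) :
    ∃ (s : ℤ) (h : K), h ∈ AA k G.Y1 G.Y2 s ∧ h ∉ AA k G.Y1 G.Y2 (s - 1) ∧
      h * x ∈ G.R (s + j) := sorry

end

end Pool.Agent.H54R2.Ul
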