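import Pool.Agent.H54R2.Ul.Defs3

namespace Pool.Agent.H54R2.Ul

open MvPolynomial

noncomputable section

variable {k K : Type} [Field k] [Field K] [Algebra k K]

/-- **Task GM1.** -/
theorem GM1 (G : Fil k K) (fin_dim : ∀ t : ℤ, Module.Finite k (G.R t))
    (dim_eq : ∀ t : ℤ, 6 ≤ t →
      2 * (Module.finrank k (G.R t) : ℤ) = 1715 * t ^ 2 - 8575 * t + 9604)
    (fin_gen : ∃ t0 : ℤ, ∀ t : ℤ, t0 ≤ t → ∀ x ∈ G.R (t + 1),
      ∃ a ∈ G.R t, ∃ b ∈ G.R t, ∃ c ∈ G.R t, x = a + G.Y1 * b + G.Y2 * c) :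
    AlgebraicIndependent k ![G.Y1, G.Y2] := sorry

end

end Pool.Agent.H54R2.Ul
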