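import Pool.Agent.H54R2.Ul.Defs3

namespace Pool.Agent.H54R2.Ul

open MvPolynomial

noncomputable section

variable {k K : Type} [Field k] [Field K] [Algebra k K]

/-- **Task GP.** General position. -/
theorem GP {k H L : Type} [Field k] [Infinite k] [AddCommGroup H] [Module k H]
    [Module.Finite k H] [Field L] [Algebra k L]
    {m : ℕ} {I : Type} (κ : I → Type) [∀ i, Field (κ i)] [∀ i, Algebra k (κ i)]
    (r : ∀ i, H →ₗ[k] (Fin m → κ i)) (r0 : H →ₗ[k] (Fin m → L))
    (hspan : ∀ i, Submodule.span (κ i) (Set.range (r i)) = ⊤)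
    (hspan0 : Submodule.span L (Set.range r0) = ⊤)
    (hfin : ∀ (j : ℕ) (h : Fin j → H), LinearIndependent L (fun a => r0 (h a)) →
      {i | ¬ LinearIndependent (κ i) (fun a => r i (h a))}.Finite) :
    ∀ j, j < m → ∃ h : Fin j → H, LinearIndependent L (fun a => r0 (h a)) ∧
      ∀ i, LinearIndependent (κ i) (fun a => r i (h a)) := sorry

end

end Pool.Agent.H54R2.Ul
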