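import Pool.Agent.H54R2.Ul.Defs3

namespace Pool.Agent.H54R2.Ul

open MvPolynomial

noncomputable section

variable {k K : Type} [Field k] [Field K] [Algebra k K]

/-- **Task GRA.** Lattices over a principal ideal domain. -/
theorem GRA {κ O L : Type} [Field κ] [CommRing O] [IsDomain O] [IsPrincipalIdealRing O]
    [Algebra κ O] [Field L] [Algebra O L] [IsFractionRing O L] (p : ℕ) {ρ : ℕ}
    (Q : Submodule O (Fin ρ → L)) (hfg : Q.FG)
    (hstd : ∀ v : Fin ρ → O, (fun i => algebraMap O L (v i)) ∈ Q)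
    (W : O) (hW : W ≠ 0) (hfin : Module.Finite κ (O ⧸ Ideal.span {W}))
    (hdet : ∀ v : Fin ρ → Fin ρ → L, (∀ i, v i ∈ Q) →
      ∃ o : O, algebraMap O L W * (Matrix.det (Matrix.of v)) ^ p = algebraMap O L o)
    (hp : 0 < p)
    {n : ℕ} (f : Fin n → Fin ρ → L) (hf : ∀ i, f i ∈ Q)
    (hind : ∀ c : Fin n → κ, (∃ v : Fin ρ → O, ∀ j,
      ∑ i, algebraMap O L (algebraMap κ O (c i)) * f i j = algebraMap O L (v j)) → c = 0) :
    p * n ≤ Module.finrank κ (O ⧸ Ideal.span {W}) := sorry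

end

end Pool.Agent.H54R2.Ul
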