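import Pool.Agent.H54R2.Ul.Defs3

namespace Pool.Agent.H54R2.Ul

open MvPolynomial

noncomputable section

variable {k K : Type} [Field k] [Field K] [Algebra k K]

/-- **Task GRB.** Coordinates adapted to a hypersurface section. -/
theorem GRB [Infinite k] (G : Geo k K) (h : K) (hh : h ≠ 0) (w : ℤ) (hw : h ∈ G.R w) :
    ∃ y0 y1 : K, y0 ∈ Submodule.span k {1, G.Y1, G.Y2} ∧ y1 ∈ Submodule.span k {1, G.Y1, G.Y2} ∧
      LinearIndependent k ![y0, y1] ∧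
      ∃ t0 : ℤ, ∀ t ≥ t0, ∀ x ∈ G.R (t + 1), ∃ a ∈ G.R t, ∃ b ∈ G.R t, ∃ c ∈ G.R (t + 1 - w),
        x = y0 * a + y1 * b + h * c := sorry

end

end Pool.Agent.H54R2.Ul
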