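import Pool.Agent.H54R2.Ul.Defs3

namespace Pool.Agent.H54R2.Ul

open MvPolynomial

noncomputable section

variable {k K : Type} [Field k] [Field K] [Algebra k K]

/-- **Task GROW.** (uses GRA, GRB, NOE) -/
theorem GROW [IsAlgClosed k] (p : ℕ) [Fact p.Prime] [CharP k p] (G : Geo k K)
    {ρ : ℕ} (hρ : 0 < ρ) (Q : ℤ → Submodule k (Fin ρ → K))
    (hmul : ∀ (s t : ℤ) (a : K) (v : Fin ρ → K), a ∈ G.R s → v ∈ Q t → a • v ∈ Q (s + t))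
    (hstd : ∀ (t : ℤ) (v : Fin ρ → K), (∀ i, v i ∈ G.R t) → v ∈ Q t)
    (hden : ∃ (m : ℤ) (e : K), e ≠ 0 ∧ e ∈ G.R m ∧
      ∀ (t : ℤ) (v : Fin ρ → K), v ∈ Q t → ∀ i, e * v i ∈ G.R (t + m))
    (W : K) (hW : W ≠ 0) (w : ℤ) (hWm : W ∈ G.R w)
    (hdet : ∀ (t : Fin ρ → ℤ) (v : Fin ρ → Fin ρ → K), (∀ i, v i ∈ Q (t i)) →
      W * (Matrix.det (Matrix.of v)) ^ p ∈ G.R (w + p * ∑ i, t i))
    (α β : ℤ) (hgrow : ∃ t0 : ℤ, ∀ t ≥ t0,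
      2 * (ρ : ℤ) * Module.finrank k (G.R t) + α * t - β ≤ 2 * Module.finrank k (Q t)) :
    (p : ℤ) * α ≤ 2 * 1715 * w := sorry

end

end Pool.Agent.H54R2.Ul
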