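import Pool.Agent.H54R2.Ul.Defs3

namespace Pool.Agent.H54R2.Ul

open MvPolynomial

noncomputable section

variable {k K : Type} [Field k] [Field K] [Algebra k K]

/-- **Task GZ.** All properties together (uses the tasks GA–GM). -/
theorem GZ (p : ℕ) [Fact p.Prime] [CharP k p] (hp : 2000 < p) [IsAlgClosed k] (M : Model k K) :
    ∃ G : Geo k K, G.toFil = M.fil ∧ HasDer G.toFil p := sorry

end

end Pool.Agent.H54R2.Ul
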