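import Pool.Agent.H54R2.Ul.Defs3

namespace Pool.Agent.H54R2.Ul

open MvPolynomial

noncomputable section

variable {k K : Type} [Field k] [Field K] [Algebra k K]

/-- **Task IRR.** A height-one prime does not contain all linear forms. -/
theorem IRR (G : Geo k K) (q : Ideal G.toFil.Rg) (hq : HtOne q) :
    ∃ (y : K) (f : G.toFil.Rg), y ∈ G.R 1 ∧ f.1 = Polynomial.monomial 1 y ∧ f ∉ q := sorry

end

end Pool.Agent.H54R2.Ul
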