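import Pool.Agent.H54R2.Ul.Defs3

namespace Pool.Agent.H54R2.Ul

open MvPolynomial

noncomputable section

variable {k K : Type} [Field k] [Field K] [Algebra k K]

/-- **Task L2S.** Sections of large degree generate the local lattices. -/
theorem L2S (G : Geo k K) {N r : ℕ} (c : Fin N → Fin r → K) (hc : IsDatum G.toFil c) :
    ∃ a0 : ℤ, 0 ≤ a0 ∧ ∀ a : ℤ, a0 ≤ a → ∀ (q : Ideal G.toFil.Rg), HtOne q →
      ∀ (D : LocD G.toFil c q) (j : Fin r ⊕ Fin r),
        ∃ (n : ℕ) (g : Fin n → FractionRing (Polynomial K)) (u : Fin n → Fin r ⊕ Fin r → K),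
          (∀ i, InLoc G.toFil q (g i)) ∧ (∀ i, u i ∈ UU G.toFil 1 c a) ∧
          ∀ l, (if l = j then 1 else 0 : FractionRing (Polynomial K)) =
            ∑ i, g i * D.rho 1 a (u i) l := sorry

end

end Pool.Agent.H54R2.Ul
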