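import Pool.Agent.H54R2.Ul.Defs3

namespace Pool.Agent.H54R2.Ul

open MvPolynomial

noncomputable section

/-- **Task T1A.** Filtered modules over `k[y1,y2]` of depth two have a filtered free resolution of
length one. -/
theorem T1A {k E : Type} [Field k] [AddCommGroup E] [Module k E]
    [Module (MvPolynomial (Fin 2) k) E] [IsScalarTower k (MvPolynomial (Fin 2) k) E]
    (U : ℤ → Submodule k E) (hfd : ∀ t, Module.Finite k (U t))
    (hmono : ∀ t, U t ≤ U (t + 1))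
    (hX : ∀ (i : Fin 2) t, ∀ x ∈ U t, (X i : MvPolynomial (Fin 2) k) • x ∈ U (t + 1))
    (hbot : ∃ t0 : ℤ, ∀ t < t0, U t = ⊥)
    (hfg : ∃ t0 : ℤ, ∀ t ≥ t0, ∀ x ∈ U (t + 1), ∃ a ∈ U t, ∃ b ∈ U t, ∃ c ∈ U t,
      x = a + (X 0 : MvPolynomial (Fin 2) k) • b + (X 1 : MvPolynomial (Fin 2) k) • c)
    (hreg : ∀ t, ∀ x ∈ U t, (X 0 : MvPolynomial (Fin 2) k) • x ∈ U t → x ∈ U (t - 1)) :
    ∃ (m n : ℕ) (a : Fin m → ℤ) (b : Fin n → ℤ) (u : Fin m → E)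
      (g : Fin n → Fin m → MvPolynomial (Fin 2) k),
      (∀ j i, g j i ∈ Pl k (b j - a i)) ∧
      (∀ (t : ℤ) (x : E), x ∈ U t ↔ ∃ f : Fin m → MvPolynomial (Fin 2) k,
        (∀ i, f i ∈ Pl k (t - a i)) ∧ x = ∑ i, f i • u i) ∧
      (∀ (t : ℤ) (f : Fin m → MvPolynomial (Fin 2) k), (∀ i, f i ∈ Pl k (t - a i)) →
        ∑ i, f i • u i = 0 → ∃ h : Fin n → MvPolynomial (Fin 2) k,
          (∀ j, h j ∈ Pl k (t - b j)) ∧ f = ∑ j, h j • g j) ∧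
      (∀ j, ∑ i, g j i • u i = 0) ∧
      (∀ h : Fin n → MvPolynomial (Fin 2) k, ∑ j, h j • g j = 0 → h = 0) := sorry

end

end Pool.Agent.H54R2.Ul
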