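import Pool.Agent.H54R2.Ul.Defs3

namespace Pool.Agent.H54R2.Ul

open MvPolynomial

noncomputable section

variable {k K : Type} [Field k] [Field K] [Algebra k K]

/-- **Task V1.** Generalised Wronskians in characteristic `p`. -/
theorem V1 (p : ℕ) [Fact p.Prime] [CharP k p] (D1 D2 : Derivation k K K)
    (hconst : ∀ x : K, D1 x = 0 → D2 x = 0 → ∃ y : K, y ^ p = x)
    {ρ : ℕ} (q : Fin ρ → K) (hq : ∀ x : Fin ρ → K, ∑ l, x l ^ p * q l = 0 → x = 0) :
    ∃ w : Fin ρ → List Bool, (∀ i, (w i).length ≤ ρ) ∧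
      Matrix.det (Matrix.of fun i l => Dw D1 D2 (w i) (q l)) ≠ 0 := sorry

end

end Pool.Agent.H54R2.Ul
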