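import Pool.Agent.H54R2.Ul.Defs3

namespace Pool.Agent.H54R2.Ul

open MvPolynomial

noncomputable section

variable {k K : Type} [Field k] [Field K] [Algebra k K]

/-- **Task V4.** Forms of small degree on the Frobenius pullback vanish. -/
theorem V4 [IsAlgClosed k] (p : ℕ) [Fact p.Prime] [CharP k p] (G : Geo k K)
    (hder : HasDer G.toFil p) {N r : ℕ} (c : Fin N → Fin r → K) (hc : IsDatum G.toFil c)
    (t : ℤ) (w : Fin r → K) (hw : w ∈ W1 G.toFil p c t) (hw0 : w ≠ 0) :
    4 * (p : ℤ) ≤ t + 20 * r := sorry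

end

end Pool.Agent.H54R2.Ul
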