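import Pool.Agent.H54R2.Ul.Defs3

namespace Pool.Agent.H54R2.Ul

open MvPolynomial

noncomputable section

/-- **Task X1.** The projection is a Noether normalisation. -/
theorem X1 {k K : Type} [Field k] [Field K] [Algebra k K] (M : Model k K)
    (algInd : AlgebraicIndependent k ![M.Y1, M.Y2])
    (fin_dim : ∀ t : ℤ, Module.Finite k (M.RM t))
    (fin_gen : ∃ t0 : ℤ, ∀ t : ℤ, t0 ≤ t → ∀ x ∈ M.RM (t + 1),
      ∃ a ∈ M.RM t, ∃ b ∈ M.RM t, ∃ c ∈ M.RM t, x = a + M.Y1 * b + M.Y2 * c) :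
    Function.Injective (aeval (R := k)
      (fun j => (Ideal.Quotient.mk (II k) (ell k j)))) ∧
    (aeval (R := k) (fun j => (Ideal.Quotient.mk (II k) (ell k j))) :
      MvPolynomial (Fin 3) k →ₐ[k] _).toRingHom.Finite := sorry

end

end Pool.Agent.H54R2.Ul
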