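import Pool.Agent.H54R2.Ul.Defs3

namespace Pool.Agent.H54R2.Ul

open MvPolynomial

noncomputable section

/-- **Task X2.** The ideal of the surface. -/
theorem X2 {k K : Type} [Field k] [Field K] [Algebra k K] (M : Model k K) :
    RingHom.ker (Theta M) = II k := sorry

end

end Pool.Agent.H54R2.Ul
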