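import Pool.Agent.H54R2.Ul.Defs3

namespace Pool.Agent.H54R2.Ul

open MvPolynomial

noncomputable section

/-- **Task X3.** Reduction modulo large primes. -/
theorem X3 (R : Type) [CommRing R] [IsDomain R] [CharZero R] [Algebra.FiniteType ℤ R] (n : ℕ) :
    ∃ (p : ℕ) (_ : Fact p.Prime), n < p ∧ Nonempty (R →+* AlgebraicClosure (ZMod p)) := sorry

end

end Pool.Agent.H54R2.Ul
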