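import Pool.Agent.H54R2.Ul.Defs3

namespace Pool.Agent.H54R2.Ul

open MvPolynomial

noncomputable section

/-- **Task X3b.** Reduction of a matrix representation modulo a large prime. -/
theorem X3b {N : ℕ} (ρ : MvPolynomial V22 ℤ →+* Matrix (Fin N) (Fin N) (MvPolynomial (Fin 3) ℂ))
    (hlin : ∀ v i j, (ρ (X v) i j).IsHomogeneous 1) (hrel : ∀ f ∈ RelZ, ρ f = 0)
    (hell : ∀ j, ρ (ell ℤ j) = Matrix.scalar (Fin N) (X j)) (n : ℕ) :
    ∃ (p : ℕ) (_ : Fact p.Prime), n < p ∧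
      ∃ ρ' : MvPolynomial V22 ℤ →+*
          Matrix (Fin N) (Fin N) (MvPolynomial (Fin 3) (AlgebraicClosure (ZMod p))),
        (∀ v i j, (ρ' (X v) i j).IsHomogeneous 1) ∧ (∀ f ∈ RelZ, ρ' f = 0) ∧
        (∀ j, ρ' (ell ℤ j) = Matrix.scalar (Fin N) (X j)) := sorry

end

end Pool.Agent.H54R2.Ul
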