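import Pool.Agent.H54R2.Ul.Defs3

namespace Pool.Agent.H54R2.Ul

open MvPolynomial

noncomputable section

/-- **Task X4a.** From a matrix representation to an action of the affine coordinate ring. -/
theorem X4a {k K : Type} [Field k] [Field K] [Algebra k K] (M : Model k K) {N : ℕ}
    (ρ : MvPolynomial V22 ℤ →+* Matrix (Fin N) (Fin N) (MvPolynomial (Fin 3) k))
    (hlin : ∀ v i j, (ρ (X v) i j).IsHomogeneous 1) (hrel : ∀ f ∈ RelZ, ρ f = 0)
    (hell : ∀ j, ρ (ell ℤ j) = Matrix.scalar (Fin N) (X j)) :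
    ∃ σ : M.fil.BB →ₐ[k] Matrix (Fin N) (Fin N) K,
      (∀ (t : ℤ) (x : M.fil.BB), (x : K) ∈ M.RM t → ∀ i j, σ x i j ∈ AA k M.Y1 M.Y2 t) ∧
      (∀ x : M.fil.BB, (x : K) = M.Y1 → σ x = Matrix.scalar (Fin N) M.Y1) ∧
      (∀ x : M.fil.BB, (x : K) = M.Y2 → σ x = Matrix.scalar (Fin N) M.Y2) := sorry

end

end Pool.Agent.H54R2.Ul
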