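import Pool.Agent.H54R2.Ul.Defs3

namespace Pool.Agent.H54R2.Ul

open MvPolynomial

noncomputable section

/-- **Task X4b.** From an action to a datum. -/
theorem X4b {k K : Type} [Field k] [Field K] [Algebra k K] (G : Geo k K) {N : ℕ} (hN : 0 < N)
    (σ : G.toFil.BB →ₐ[k] Matrix (Fin N) (Fin N) K)
    (h1 : ∀ (t : ℤ) (x : G.toFil.BB), (x : K) ∈ G.R t → ∀ i j, σ x i j ∈ AA k G.Y1 G.Y2 t)
    (h2 : ∀ x : G.toFil.BB, (x : K) = G.Y1 → σ x = Matrix.scalar (Fin N) G.Y1)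
    (h3 : ∀ x : G.toFil.BB, (x : K) = G.Y2 → σ x = Matrix.scalar (Fin N) G.Y2) :
    ∃ (r : ℕ) (c : Fin N → Fin r → K), 0 < r ∧ N = 1715 * r ∧ IsDatum G.toFil c := sorry

end

end Pool.Agent.H54R2.Ul
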